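import Mathlib

open MeasureTheory Filter Topology Real Finset
open scoped ContDiff

namespace Pool.Agent.H.MP_480559_an

abbrev T := Circle × Circle
abbrev V := ℝ × ℝ

/-- The covering map of the torus. -/
noncomputable def pr (x : V) : T := (Circle.exp x.1, Circle.exp x.2)

/-- A chosen lift of a point of the torus. -/
noncomputable def sec (z : T) : V := (Complex.arg z.1, Complex.arg z.2)

/-- The Euclidean norm. -/
noncomputable def en (v : V) : ℝ := √(v.1 ^ 2 + v.2 ^ 2)

/-- Entropy of the partition into `P`-names of length `n`. -/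
noncomputable def Hn [MeasurableSpace T] (f : T → T) (μ : Measure T) {k : ℕ} (P : T → Fin k) (n : ℕ) : ℝ :=
  ∑ w : Fin n → Fin k, negMulLog (μ.real {x | ∀ i : Fin n, P (f^[i] x) = w i})

/-- Kolmogorov-Sinai entropy. -/
noncomputable def ks [MeasurableSpace T] (f : T → T) (μ : Measure T) : EReal :=
  ⨆ (k : ℕ) (P : T → Fin k) (_ : Measurable P),
    limsup (fun n : ℕ => ((Hn f μ P n / n : ℝ) : EReal)) atTop

/-- Pressure of a potential. -/
noncomputable def pres [MeasurableSpace T] (f : T → T) (φ : T → ℝ) : EReal :=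
  ⨆ (μ : Measure T) (_ : IsProbabilityMeasure μ) (_ : MeasurePreserving f μ μ),
    ks f μ + (∫ x, φ x ∂μ : ℝ)

/-- `f` is a smooth diffeomorphism of the torus with lift `F`. -/
def Diff (f : Equiv.Perm T) (F : Equiv.Perm V) : Prop :=
  ContDiff ℝ ∞ F ∧ ContDiff ℝ ∞ F.symm ∧ ∀ v, f (pr v) = pr (F v)

/-- The line field spanned by `e` is invariant under `F` and uniformly contracted by it. -/
def Contr (F : V → V) (e : T → V) : Prop :=
  Continuous e ∧ ∃ C l : ℝ, 0 < C ∧ 0 < l ∧ l < 1 ∧ ∀ v,
    (∃ c : ℝ, fderiv ℝ F v (e (pr v)) = c • e (pr (F v))) ∧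
    ∀ n : ℕ, en (fderiv ℝ F^[n] v (e (pr v))) ≤ C * l ^ n * en (e (pr v))

/-- Anosov, with unstable and stable line fields spanned by `u` and `s`. -/
def Anosov (F : Equiv.Perm V) (u s : T → V) : Prop :=
  (∀ z, LinearIndependent ℝ ![u z, s z]) ∧ Contr F s ∧ Contr F.symm u

/-- The geometric potential. -/
noncomputable def pot (F : V → V) (u : T → V) (t : ℝ) (z : T) : ℝ :=
  -t * log (en (fderiv ℝ F (sec z) (u z)) / en (u z))

end Pool.Agent.H.MP_480559_an
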