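import Mathlib
import Pool.Agent.H.MP_480559_an.D

open MeasureTheory Filter Topology Real Finset
open scoped ContDiff

namespace Pool.Agent.H.MP_480559_an

lemma psec (z : T) : pr (sec z) = z := by simp [pr, sec]

lemma en_smul (c : ℝ) (v : V) : en (c • v) = |c| * en v := by
  simp [en, mul_pow, ← mul_add, sqrt_mul (sq_nonneg c), sqrt_sq_eq_abs]

lemma en_one (s : ℝ) : 1 ≤ en (1, s) := by simp [en, sq_nonneg]

lemma en_le {s : ℝ} (h : |s| ≤ 6) : en (1, s) ≤ 7 := sqrt_le_iff.2 ⟨by norm_num, by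
  have := sq_le_sq' (abs_le.1 h).1 (abs_le.1 h).2; simp; linarith⟩

lemma contr {F : V → V} (hF : Differentiable ℝ F) {s : T → ℝ} (c : Continuous s) (b : ∀ z, |s z| ≤ 6)
    (h : ∀ v, ∃ k : ℝ, |k| ≤ 1 / 2 ∧ fderiv ℝ F v (1, s (pr v)) = k • ((1 : ℝ), s (pr (F v)))) :
    Contr F fun z => (1, s z) := by
  refine ⟨by fun_prop, 7, 1 / 2, by norm_num, by norm_num, by norm_num, fun v =>
    ⟨(h v).imp fun _ => And.right, fun n => le_trans ?_ (le_mul_of_one_le_right (by positivity) (en_one _))⟩⟩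
  induction n generalizing v with
  | zero => simpa using en_le (b _)
  | succ n ih =>
    obtain ⟨k, p, q⟩ := h v
    rw [Function.iterate_succ, fderiv_comp v (hF.iterate n _) (hF v), ContinuousLinearMap.comp_apply, q,
      map_smul, en_smul, pow_succ', mul_left_comm]
    exact mul_le_mul p (ih _) (sqrt_nonneg _) (by norm_num)

section
variable [MeasurableSpace T]

lemma cob [BorelSpace T] {f : T → T} {μ : Measure T} (h : MeasurePreserving f μ μ) {W : T → ℝ}
    (c : Continuous W) : ∫ x, W (f x) ∂μ = ∫ x, W x ∂μ := by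
  rw [← integral_map h.aemeasurable c.aestronglyMeasurable, h.map_eq]

lemma rev {f g K : T → T} {μ : Measure T} (h : MeasurePreserving f μ μ) (mg : Measurable g)
    (mK : Measurable K) (e : ∀ z, g (K (f z)) = K z) (kk : ∀ z, K (K z) = z) :
    MeasurePreserving g (μ.map K) (μ.map K) ∧ ks f μ ≤ ks g (μ.map K) := by
  refine ⟨⟨mg, ?_⟩, iSup_le fun k => iSup₂_le fun P hP => le_iSup_of_le k (le_iSup₂_of_le (P ∘ K)
    (hP.comp mK) (le_of_eq ?_))⟩
  · conv_lhs => rw [← h.map_eq]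
    rw [Measure.map_map mK h.measurable, Measure.map_map mg (mK.comp h.measurable)]
    exact congrArg (Measure.map · μ) (funext e)
  congr 1 with n
  congr 2
  have i (a b : ℕ) (z) : g^[a] (K (f^[a + b] z)) = K (f^[b] z) := by
    induction a generalizing b with
    | zero => simp
    | succ a ih => rw [Function.iterate_succ_apply, add_right_comm, Function.iterate_succ_apply', e, ih]
  refine (Fintype.sum_equiv (Equiv.arrowCongr Fin.revPerm (.refl _)) _ _ fun w => ?_)
  have m (f : T → T) (hf : Measurable f) (P : T → Fin k) (hP : Measurable P) (w : Fin n → Fin k) :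
      MeasurableSet {x | ∀ i : Fin n, P (f^[i] x) = w i} := by
    rw [Set.ofPred_forall]
    exact .iInter fun i => (hP.comp (hf.iterate i)) (.singleton (w i))
  rw [map_measureReal_apply mK (m g mg _ (hP.comp mK) _), ← (h.iterate (n - 1)).measureReal_preimage
    (mK (m g mg _ (hP.comp mK) _)).nullMeasurableSet]
  congr 2 with x
  refine Fin.revPerm.forall_congr_right.symm.trans (forall_congr' fun j => ?_)
  have := i j (n - 1 - j) x
  rw [show j + (n - 1 - j) = n - 1 by omega] at this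
  simp [this, kk, Nat.sub_sub, add_comm]

end

noncomputable def al (c σ k s : ℝ) : ℝ := c * (s * k * (k + 2 * σ * s))
noncomputable def da (c σ k s : ℝ) : ℝ :=
  4 + c * ((k ^ 2 - s ^ 2) * (k + 2 * σ * s) + s * k * (2 * σ * k - s))
noncomputable def ph (c σ y : ℝ) : ℝ := 4 * y + al c σ (cos y) (sin y)
noncomputable def ga (c σ : ℝ) (w : Circle) : Circle := w ^ 4 * .exp (al c σ (w : ℂ).re (w : ℂ).im)
noncomputable def dc (c σ : ℝ) (w : Circle) : ℝ := da c σ (w : ℂ).re (w : ℂ).im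

lemma gaph (c σ y : ℝ) : ga c σ (.exp y) = .exp (ph c σ y) := by
  simp [ga, ph, Circle.exp_add, ← Circle.exp_nsmul]

lemma dph (c σ y : ℝ) : HasDerivAt (ph c σ) (dc c σ (.exp y)) y :=
  (((hasDerivAt_id y).const_mul 4).add ((((hasDerivAt_sin y).mul (hasDerivAt_cos y)).mul
    ((hasDerivAt_cos y).add ((hasDerivAt_sin y).const_mul (2 * σ)))).const_mul c)).congr_deriv
    (by simp [dc, da]; left; ring)

lemma bd {c σ : ℝ} (hc : |c| ≤ 1 / 6) (hσ : |σ| = 1) (w : Circle) : 3 ≤ dc c σ w ∧ dc c σ w ≤ 5 := by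
  have re : |(w : ℂ).re| ≤ 1 := (Complex.abs_re_le_norm _).trans w.norm_coe.le
  have im : |(w : ℂ).im| ≤ 1 := (Complex.abs_im_le_norm _).trans w.norm_coe.le
  unfold dc da
  generalize (w : ℂ).re = k at *; generalize (w : ℂ).im = s at *
  have a : |k ^ 2 - s ^ 2| ≤ 1 := abs_le.2 ⟨by nlinarith [abs_le.1 im], by nlinarith [abs_le.1 re]⟩
  have b : |k + 2 * σ * s| ≤ 3 := (abs_add_le _ _).trans (by simp [abs_mul, hσ]; linarith)
  have d : |2 * σ * k - s| ≤ 3 := (abs_sub _ _).trans (by simp [abs_mul, hσ]; linarith)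
  have : |c * ((k ^ 2 - s ^ 2) * (k + 2 * σ * s) + s * k * (2 * σ * k - s))| ≤ 1 / 6 * (1 * 3 + 1 * 1 * 3) := by
    rw [abs_mul]; gcongr; refine (abs_add_le _ _).trans ?_; simp only [abs_mul]; gcongr
  constructor <;> linarith [abs_le.1 this]

noncomputable def f (σ : ℝ) : Equiv.Perm T where
  toFun z := (z.1 * ga (1 / 6) σ z.2, z.2 * ga (1 / 12) 1 (z.1 * ga (1 / 6) σ z.2))
  invFun z := (z.1 / ga (1 / 6) σ (z.2 / ga (1 / 12) 1 z.1), z.2 / ga (1 / 12) 1 z.1)
  left_inv z := by simp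
  right_inv z := by simp

noncomputable def F (σ : ℝ) : Equiv.Perm V where
  toFun z := (z.1 + ph (1 / 6) σ z.2, z.2 + ph (1 / 12) 1 (z.1 + ph (1 / 6) σ z.2))
  invFun z := (z.1 - ph (1 / 6) σ (z.2 - ph (1 / 12) 1 z.1), z.2 - ph (1 / 12) 1 z.1)
  left_inv z := by simp
  right_inv z := by simp

noncomputable def K (z : T) : T := (z.1, z.2⁻¹ * ga (1 / 12) 1 z.1)

@[fun_prop] lemma cga : Continuous fun p : ℝ × ℝ × Circle => ga p.1 p.2.1 p.2.2 := by
  unfold ga al; fun_prop
@[fun_prop] lemma cdc (c σ) : Continuous (dc c σ) := by unfold dc da; fun_prop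
lemma cg (c σ) : Continuous (ga c σ) := by unfold ga al; fun_prop
lemma cf (σ) : Continuous (f σ) := by have := cg (1 / 6) σ; have := cg (1 / 12) 1; unfold f; dsimp; fun_prop
lemma cf' (σ) : Continuous (f σ).symm := by
  have := cg (1 / 6) σ; have := cg (1 / 12) 1; unfold f; dsimp; fun_prop
lemma cK : Continuous K := by have := cg (1 / 12) 1; unfold K; fun_prop

@[fun_prop] lemma cph (c σ) : ContDiff ℝ ∞ (ph c σ) := by unfold ph al; fun_prop

lemma diff (σ) : Diff (f σ) (F σ) := ⟨by unfold F; dsimp; fun_prop, by unfold F; dsimp; fun_prop,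
  fun v => by simp [f, F, pr, gaph, ← Circle.exp_add]⟩

lemma dcinv (σ) (w : Circle) : dc (1 / 6) (-σ) w⁻¹ = dc (1 / 6) σ w := by simp [dc, da]; ring

lemma Kf (σ) (z : T) : K (f σ z) = ((f σ z).1, z.2⁻¹) := by simp [K, f]

lemma gKf (σ) (z : T) : f (-σ) (K (f σ z)) = K z := by
  have : ga (1 / 6) (-σ) z.2⁻¹ = (ga (1 / 6) σ z.2)⁻¹ := by
    rw [ga, ga, mul_inv, inv_pow, ← Circle.exp_neg]; simp [al]
  rw [Kf]; simp [-one_div, f, K, this]

lemma dF (σ) (v w : V) : fderiv ℝ (F σ) v w = (w.1 + dc (1 / 6) σ (pr v).2 * w.2,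
    w.2 + dc (1 / 12) 1 (f σ (pr v)).1 * (w.1 + dc (1 / 6) σ (pr v).2 * w.2)) := by
  have a := hasFDerivAt_fst.add ((dph (1 / 6) σ v.2).comp_hasFDerivAt v (hasFDerivAt_snd (𝕜 := ℝ)))
  erw [(a.prodMk (hasFDerivAt_snd.add ((dph (1 / 12) 1 _).comp_hasFDerivAt v a))).fderiv]
  simp [pr, f, gaph, Circle.exp_add, mul_add]

lemma slope {σ} (hσ : |σ| = 1) : ∃ s : T → ℝ, Continuous s ∧ ∀ z, 3 ≤ s z ∧ s z ≤ 6 ∧
    s (f σ z) = dc (1 / 12) 1 (f σ z).1 + s z / (1 + dc (1 / 6) σ z.2 * s z) := by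
  have p := bd (c := 1 / 6) (by norm_num [abs_of_pos]) hσ
  have q := bd (c := 1 / 12) (σ := 1) (by norm_num [abs_of_pos]) abs_one
  have c := cf' σ
  have o (w) (m : ℝ) : 4 ≤ 1 + dc (1 / 6) σ w * max m 1 := by nlinarith [p w, le_max_right m 1]
  let Γ (s : C(T, ℝ)) : C(T, ℝ) := ⟨fun z => dc (1 / 12) 1 z.1 + max (s ((f σ).symm z)) 1 /
    (1 + dc (1 / 6) σ ((f σ).symm z).2 * max (s ((f σ).symm z)) 1),
    Continuous.add (by fun_prop) (.div (by fun_prop) (by fun_prop) fun z => by linarith [o ((f σ).symm z).2 (s ((f σ).symm z))])⟩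
  have : ContractingWith (1 / 2) Γ := ⟨by norm_num, .of_dist_le_mul fun s t =>
    (ContinuousMap.dist_le (by positivity)).2 fun z => by
      have a := o ((f σ).symm z).2 (s ((f σ).symm z))
      have b := o ((f σ).symm z).2 (t ((f σ).symm z))
      have d := (abs_max_sub_max_le_abs _ _ 1).trans (ContinuousMap.dist_apply_le_dist (f := s) (g := t)
        ((f σ).symm z))
      simp only [Γ, ContinuousMap.coe_mk, dist_add_left, Real.dist_eq]
      rw [div_sub_div _ _ (by linarith) (by linarith), abs_div, div_le_iff₀ (by positivity),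
        abs_of_pos (a := _ * _) (by positivity)]
      refine le_trans (le_of_eq (by congr 1; ring)) (d.trans ?_)
      have := mul_le_mul a b (by norm_num) (by linarith)
      simp only [NNReal.coe_div, NNReal.coe_one, NNReal.coe_ofNat]
      nlinarith [dist_nonneg (x := s) (y := t)]⟩
  have e (z) : this.fixedPoint Γ z = _ := (DFunLike.congr_fun this.fixedPoint_isFixedPt z).symm
  set s := this.fixedPoint Γ
  have b (z) : 3 ≤ s z ∧ s z ≤ 6 := by
    have a := o ((f σ).symm z).2 (s ((f σ).symm z))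
    have m := le_max_right (s ((f σ).symm z)) 1
    have : max (s ((f σ).symm z)) 1 / (1 + dc (1 / 6) σ ((f σ).symm z).2 * max (s ((f σ).symm z)) 1) ≤ 1 :=
      (div_le_one (by linarith)).2 (by nlinarith [p ((f σ).symm z).2])
    rw [e]; dsimp [Γ]
    exact ⟨(q _).1.trans (le_add_of_nonneg_right (by positivity)), by linarith [q z.1]⟩
  exact ⟨s, s.continuous, fun z => ⟨(b z).1, (b z).2, by
    rw [e]; simp only [Γ, ContinuousMap.coe_mk, Equiv.symm_apply_apply,
      max_eq_left (by linarith [b z] : 1 ≤ s z)]⟩⟩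

end Pool.Agent.H.MP_480559_an
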